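import Pool.Agent.helper36.MP.SpecP
import Pool.Agent.helper98.ILF.Density

/-! # mp:EVT. Comparison of the branches over a point near a critical value -/

set_option autoImplicit false

open Complex Metric Set Filter Topology MeasureTheory

noncomputable section

namespace MPS

/-- the derivative of an injective holomorphic function does not vanish -/
theorem EVT_deriv {f : ℂ → ℂ} {z₀ : ℂ} {r : ℝ} (hr : 0 < r) (hd : DifferentiableOn ℂ f (ball z₀ r))
    (hi : InjOn f (ball z₀ r)) : deriv f z₀ ≠ 0 := by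
  have hf : AnalyticAt ℂ f z₀ :=
    hd.analyticAt (isOpen_ball.mem_nhds (mem_ball_self hr))
  have han : AnalyticAt ℂ (fun z => f z - f z₀) z₀ := hf.sub analyticAt_const
  have hball : ball z₀ r ∈ 𝓝 z₀ := ball_mem_nhds _ hr
  have htop : analyticOrderAt (fun z => f z - f z₀) z₀ ≠ ⊤ := by
    intro h
    rw [analyticOrderAt_eq_top] at h
    have h1 : ∀ᶠ z in 𝓝[≠] z₀, f z - f z₀ = 0 ∧ z ∈ ball z₀ r ∧ z ≠ z₀ :=
      (h.filter_mono nhdsWithin_le_nhds).and
        ((Filter.Eventually.filter_mono nhdsWithin_le_nhds hball).and self_mem_nhdsWithin)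
    obtain ⟨z, hz1, hz2, hz3⟩ := h1.exists
    exact hz3 (hi hz2 (mem_ball_self hr) (sub_eq_zero.1 hz1))
  obtain ⟨m, hm⟩ := ENat.ne_top_iff_exists.1 htop
  obtain ⟨g, hg, hg0, hfg⟩ := han.analyticOrderAt_eq_natCast.1 hm.symm
  have hm0 : m ≠ 0 := by
    rintro rfl
    have h1 := hfg.self_of_nhds
    rw [sub_self, pow_zero, one_smul] at h1
    exact hg0 h1.symm
  by_cases hm1 : m = 1
  · subst hm1
    have h1 : HasDerivAt (fun z => (z - z₀) ^ 1 • g z) (g z₀) z₀ := by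
      have h2 : HasDerivAt (fun z => (z - z₀) * g z) (1 * g z₀ + (z₀ - z₀) * deriv g z₀) z₀ :=
        ((hasDerivAt_id z₀).sub_const z₀).mul hg.differentiableAt.hasDerivAt
      rw [sub_self, zero_mul, add_zero, one_mul] at h2
      refine h2.congr_of_eventuallyEq (Filter.Eventually.of_forall fun z => ?_)
      simp
    have h3 : HasDerivAt (fun z => f z - f z₀) (g z₀) z₀ := h1.congr_of_eventuallyEq hfg
    have h4 : HasDerivAt f (g z₀) z₀ := by
      have h5 := h3.add_const (f z₀)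
      simpa using h5
    rw [h4.deriv]
    exact hg0
  · exfalso
    have hgd : ∀ᶠ z in 𝓝 z₀, DifferentiableAt ℂ g z ∧ g z ≠ 0 ∧
        f z - f z₀ = (z - z₀) ^ m • g z ∧ z ∈ ball z₀ r :=
      (hg.eventually_analyticAt.mono fun z hz => hz.differentiableAt).and
        ((hg.continuousAt.eventually_ne hg0).and (hfg.and hball))
    obtain ⟨ρ, hρ, hρ'⟩ := Metric.eventually_nhds_iff_ball.1 hgd
    obtain ⟨u, hu⟩ : ∃ u : ℂ, u ^ m = g z₀ := ⟨(g z₀) ^ ((m : ℂ)⁻¹), Complex.cpow_nat_inv_pow _ hm0⟩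
    obtain ⟨g₁, hg1d, hg1u, hg1⟩ := Pool.Agent.helper98.ILF.exists_lift_pow (n := m) hm0
      (w := z₀) (u := u) (ρ := ρ) (h := g) hρ
      (fun z hz => (hρ' z hz).1.differentiableWithinAt) (fun z hz => (hρ' z hz).2.1) hu
    have hu0 : u ≠ 0 := by
      rintro rfl
      rw [zero_pow hm0] at hu
      exact hg0 hu.symm
    have hFan : AnalyticAt ℂ (fun z => (z - z₀) * g₁ z) z₀ :=
      (analyticAt_id.sub analyticAt_const).mul
        (hg1d.analyticAt (isOpen_ball.mem_nhds (mem_ball_self hρ)))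
    have hFd : deriv (fun z => (z - z₀) * g₁ z) z₀ = u := by
      have h2 : HasDerivAt (fun z => (z - z₀) * g₁ z) (1 * g₁ z₀ + (z₀ - z₀) * deriv g₁ z₀) z₀ :=
        ((hasDerivAt_id z₀).sub_const z₀).mul
          (hg1d.differentiableAt (isOpen_ball.mem_nhds (mem_ball_self hρ))).hasDerivAt
      rw [h2.deriv, hg1u]
      ring
    have hmap := hFan.hasStrictDerivAt.map_nhds_eq (by rw [hFd]; exact hu0)
    have himg : (fun z => (z - z₀) * g₁ z) '' ball z₀ ρ ∈ 𝓝 (0 : ℂ) := by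
      have h1 := Filter.image_mem_map (m := fun z => (z - z₀) * g₁ z) (ball_mem_nhds z₀ hρ)
      rw [hmap] at h1
      simpa using h1
    obtain ⟨ε, hε, hε'⟩ := Metric.mem_nhds_iff.1 himg
    have hprim := Complex.isPrimitiveRoot_exp m hm0
    set ω := Complex.exp (2 * Real.pi * Complex.I / m) with hω
    have hωn : ‖ω‖ = 1 := hprim.norm'_eq_one hm0
    have ht : ((ε / 2 : ℝ) : ℂ) ∈ ball (0 : ℂ) ε := by
      rw [mem_ball_zero_iff, Complex.norm_real, Real.norm_of_nonneg (by linarith)]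
      linarith
    have ht' : ω * ((ε / 2 : ℝ) : ℂ) ∈ ball (0 : ℂ) ε := by
      rw [mem_ball_zero_iff, norm_mul, hωn, one_mul, Complex.norm_real,
        Real.norm_of_nonneg (by linarith)]
      linarith
    obtain ⟨a, ha, hFa⟩ := hε' ht
    obtain ⟨b, hb, hFb⟩ := hε' ht'
    have hFa' : (a - z₀) * g₁ a = ((ε / 2 : ℝ) : ℂ) := hFa
    have hFb' : (b - z₀) * g₁ b = ω * ((ε / 2 : ℝ) : ℂ) := hFb
    have e1 : f a - f z₀ = ((ε / 2 : ℝ) : ℂ) ^ m := by
      rw [(hρ' a ha).2.2.1, ← hg1 a ha, smul_eq_mul, ← mul_pow, hFa']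
    have e2 : f b - f z₀ = ((ε / 2 : ℝ) : ℂ) ^ m := by
      rw [(hρ' b hb).2.2.1, ← hg1 b hb, smul_eq_mul, ← mul_pow, hFb', mul_pow, hprim.pow_eq_one,
        one_mul]
    have hab : a = b := hi (hρ' a ha).2.2.2 (hρ' b hb).2.2.2 (by
      have h1 := e1.trans e2.symm
      linear_combination h1)
    rw [hab] at hFa'
    have h3 : ω * ((ε / 2 : ℝ) : ℂ) = 1 * ((ε / 2 : ℝ) : ℂ) := by
      rw [one_mul]
      exact hFb'.symm.trans hFa'
    have h4 : ((ε / 2 : ℝ) : ℂ) ≠ 0 := by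
      have : ε / 2 ≠ 0 := by positivity
      exact_mod_cast this
    have h5 : ω = 1 := mul_right_cancel₀ h4 h3
    have h6 := hprim.eq_orderOf
    rw [h5, orderOf_one] at h6
    exact hm1 h6

theorem EVT_om (n : ℕ) (hn : n ≠ 0) : IsPrimitiveRoot (om n) n := Complex.isPrimitiveRoot_exp n hn

theorem EVT_rt (n : ℕ) (hn : n ≠ 0) (z : ℂ) : rt n z ^ n = z := by
  unfold rt
  rw [one_div]
  exact Complex.cpow_nat_inv_pow z hn

theorem EVT_root (n : ℕ) (hn : n ≠ 0) (y v : ℂ) (hv : v ≠ 0) (h : y ^ n = v ^ n) :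
    ∃ j < n, y = om n ^ j * v := by
  have : NeZero n := ⟨hn⟩
  have h1 : (y / v) ^ n = 1 := by
    rw [div_pow, h, div_self (pow_ne_zero n hv)]
  obtain ⟨j, hj, hj'⟩ := (EVT_om n hn).eq_pow_of_pow_eq_one h1
  exact ⟨j, hj, by rw [hj']; field_simp⟩

/-- the point over `ξ` -/
def EVT_W (n : ℕ) (wc ξ : ℂ) : ℂ := wc + Complex.exp (n * ξ)

/-- the preimage over `ξ` -/
def EVT_Y (n : ℕ) (wc : ℂ) (h₁ : ℂ → ℂ) (ξ : ℂ) : ℂ := Complex.exp ξ * h₁ (EVT_W n wc ξ)

theorem EVT_Wball (n : ℕ) (wc ξ : ℂ) (d : ℝ) (hd : 0 < d) (h : (n : ℝ) * ξ.re < Real.log d) :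
    EVT_W n wc ξ ∈ ball wc d := by
  unfold EVT_W
  rw [mem_ball, dist_eq_norm, add_sub_cancel_left, Complex.norm_exp]
  have h1 : ((n : ℂ) * ξ).re = n * ξ.re := by simp
  rw [h1, ← Real.lt_log_iff_exp_lt hd]
  exact h

theorem EVT_Wper (n : ℕ) (hn : n ≠ 0) (wc ξ : ℂ) :
    EVT_W n wc (ξ + 2 * Real.pi * I / n) = EVT_W n wc ξ := by
  unfold EVT_W
  have hn' : (n : ℂ) ≠ 0 := by exact_mod_cast hn
  have h1 : (n : ℂ) * (ξ + 2 * Real.pi * I / n) = n * ξ + 2 * Real.pi * I := by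
    field_simp
  rw [h1, Complex.exp_add, Complex.exp_two_pi_mul_I, mul_one]

theorem EVT_Yper (n : ℕ) (hn : n ≠ 0) (wc ξ : ℂ) (h₁ : ℂ → ℂ) :
    EVT_Y n wc h₁ (ξ + 2 * Real.pi * I / n) = om n * EVT_Y n wc h₁ ξ := by
  unfold EVT_Y
  rw [EVT_Wper n hn, Complex.exp_add]
  unfold om
  ring

/-- the branch value -/
def EVT_B (n : ℕ) {k : ℕ} [NeZero k] (b g : ZMod k → ℂ) (G : ℂ → ℂ) (wc : ℂ) (h₁ : ℂ → ℂ) (ξ : ℂ) : ℂ :=
  brv n b g G (EVT_W n wc ξ) (EVT_Y n wc h₁ ξ)

theorem EVT_BB {k : ℕ} [NeZero k] (b g : ZMod k → ℂ) (z : ℂ) (hz : ∀ i, z ≠ b i) :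
    DifferentiableAt ℂ (BB b g) z := by
  unfold BB
  refine DifferentiableAt.fun_sum fun i _ => ?_
  have h1 : z - b i ≠ 0 := sub_ne_zero.2 (hz i)
  have h2 : DifferentiableAt ℂ (fun z => z - b i) z := by fun_prop
  refine DifferentiableAt.add ?_ ?_
  · exact (differentiableAt_const _).div (h2.pow 2) (pow_ne_zero 2 h1)
  · exact (differentiableAt_const _).div h2 h1

theorem EVT_diff (n : ℕ) (hn : 2 ≤ n) {k : ℕ} [NeZero k] (b g : ZMod k → ℂ) (G : ℂ → ℂ) (wc : ℂ)
    (d : ℝ) (hd : 0 < d) (hG : DifferentiableOn ℂ G (ball wc d)) (h₁ : ℂ → ℂ)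
    (hh₁ : DifferentiableOn ℂ h₁ (ball wc d)) (ξ : ℂ) (hξ : (n : ℝ) * ξ.re < Real.log d)
    (hY0 : EVT_Y n wc h₁ ξ ≠ 0) (hYb : ∀ i, EVT_Y n wc h₁ ξ ≠ b i) :
    DifferentiableAt ℂ (EVT_B n b g G wc h₁) ξ := by
  have hW := EVT_Wball n wc ξ d hd hξ
  have hWd : DifferentiableAt ℂ (EVT_W n wc) ξ := by
    unfold EVT_W
    fun_prop
  have hYd : DifferentiableAt ℂ (EVT_Y n wc h₁) ξ := by
    unfold EVT_Y
    refine DifferentiableAt.mul (by fun_prop) ?_
    exact DifferentiableAt.comp ξ (hh₁.differentiableAt (isOpen_ball.mem_nhds hW)) hWd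
  have hGd : DifferentiableAt ℂ (fun ξ => deriv G (EVT_W n wc ξ)) ξ :=
    DifferentiableAt.comp ξ ((hG.deriv isOpen_ball).differentiableAt (isOpen_ball.mem_nhds hW)) hWd
  have hfd : DifferentiableAt ℂ (fun ξ => fd n (EVT_Y n wc h₁ ξ)) ξ := by
    unfold fd
    exact (differentiableAt_const _).mul (hYd.pow _)
  have hfd0 : fd n (EVT_Y n wc h₁ ξ) ≠ 0 := by
    unfold fd
    refine mul_ne_zero ?_ (pow_ne_zero _ hY0)
    have : n ≠ 0 := by omega
    exact_mod_cast this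
  have hBd : DifferentiableAt ℂ (BB b g ∘ EVT_Y n wc h₁) ξ := (EVT_BB b g _ hYb).comp ξ hYd
  unfold EVT_B brv
  exact ((hGd.div hfd hfd0).pow 2).mul hBd

/-- change of variables -/
theorem EVT_int (n : ℕ) (hn : 2 ≤ n) (wc p : ℂ) (d ν : ℝ) (hd : 0 < d)
    (hp : (n : ℝ) * p.re = Real.log (d / 2)) (B : ℂ → ℂ) (F : ℂ → ℝ)
    (hF : ∀ ξ, (n : ℝ) * ξ.re < Real.log d → ‖B ξ‖ - (B ξ).re ≤ F (EVT_W n wc ξ))
    (hFi : ∫⁻ w in ball wc d, ENNReal.ofReal (F w) ≤ ENNReal.ofReal ν) :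
    ∫⁻ ξ in ball p (Real.log 2 / n), ENNReal.ofReal (‖B ξ‖ - (B ξ).re) ≤
      ENNReal.ofReal (16 * ν / (n ^ 2 * d ^ 2)) := by
  have hn0 : (0 : ℝ) < n := by
    have : 0 < n := by omega
    exact_mod_cast this
  have hlog2 : 0 < Real.log 2 := Real.log_pos (by norm_num)
  have hre : ∀ ξ ∈ ball p (Real.log 2 / n), (n : ℝ) * ξ.re < Real.log d ∧
      Real.log (d / 4) < (n : ℝ) * ξ.re := by
    intro ξ hξ
    have h1 : |ξ.re - p.re| < Real.log 2 / n := by
      have h2 := Complex.abs_re_le_norm (ξ - p)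
      rw [Complex.sub_re] at h2
      rw [mem_ball, dist_eq_norm] at hξ
      linarith
    rw [lt_div_iff₀ hn0] at h1
    have h3 : |n * ξ.re - Real.log (d / 2)| < Real.log 2 := by
      rw [← hp, ← mul_sub, abs_mul, abs_of_pos hn0, mul_comm]
      exact h1
    rw [abs_lt] at h3
    rw [Real.log_div hd.ne' (by norm_num)] at h3
    have h4 : Real.log (d / 4) = Real.log d - 2 * Real.log 2 := by
      rw [Real.log_div hd.ne' (by norm_num), show (4 : ℝ) = 2 ^ 2 by norm_num, Real.log_pow]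
      push_cast
      ring
    rw [h4]
    constructor <;> linarith [h3.1, h3.2]
  set s := ball p (Real.log 2 / n) with hs
  have hder : ∀ ξ : ℂ, HasDerivAt (EVT_W n wc) (n * Complex.exp (n * ξ)) ξ := by
    intro ξ
    have h1 : HasDerivAt (fun ξ : ℂ => (n : ℂ) * ξ) (n : ℂ) ξ := by
      simpa using (hasDerivAt_id ξ).const_mul (n : ℂ)
    have h2 := (h1.cexp).const_add wc
    unfold EVT_W
    rw [mul_comm]
    exact h2
  have hfd : ∀ ξ ∈ s, HasFDerivWithinAt (EVT_W n wc)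
      ((ContinuousLinearMap.toSpanSingleton ℂ (n * Complex.exp (n * ξ))).restrictScalars ℝ : ℂ →L[ℝ] ℂ)
      s ξ := fun ξ _ => ((hder ξ).hasFDerivAt.restrictScalars ℝ).hasFDerivWithinAt
  have hinj : InjOn (EVT_W n wc) s := by
    intro ξ hξ ξ' hξ' he
    unfold EVT_W at he
    have he' := add_left_cancel he
    rw [Complex.exp_eq_exp_iff_exists_int] at he'
    obtain ⟨k, hk⟩ := he'
    have him := congrArg Complex.im hk
    have e1 : ((n : ℂ) * ξ).im = n * ξ.im := by simp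
    have e2 : ((n : ℂ) * ξ' + k * (2 * Real.pi * I)).im = n * ξ'.im + k * (2 * Real.pi) := by simp
    rw [e1, e2] at him
    have h1 : |ξ.im - p.im| < Real.log 2 / n := by
      have h2 := Complex.abs_im_le_norm (ξ - p)
      rw [Complex.sub_im] at h2
      rw [hs, mem_ball, dist_eq_norm] at hξ
      linarith
    have h2 : |ξ'.im - p.im| < Real.log 2 / n := by
      have h2 := Complex.abs_im_le_norm (ξ' - p)
      rw [Complex.sub_im] at h2
      rw [hs, mem_ball, dist_eq_norm] at hξ'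
      linarith
    have h3 : |ξ.im - ξ'.im| < 2 * (Real.log 2 / n) := by
      have h4 : ξ.im - ξ'.im = (ξ.im - p.im) - (ξ'.im - p.im) := by ring
      rw [h4]
      have h5 := abs_sub (ξ.im - p.im) (ξ'.im - p.im)
      linarith
    have h4 : |(k : ℝ) * (2 * Real.pi)| < 2 * Real.log 2 := by
      have h5 : (k : ℝ) * (2 * Real.pi) = n * (ξ.im - ξ'.im) := by linarith
      rw [h5, abs_mul, abs_of_pos hn0]
      have h6 : (n : ℝ) * |ξ.im - ξ'.im| < n * (2 * (Real.log 2 / n)) :=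
        mul_lt_mul_of_pos_left h3 hn0
      have h7 : (n : ℝ) * (2 * (Real.log 2 / n)) = 2 * Real.log 2 := by field_simp
      linarith
    have h5 : Real.log 2 < 1 := by
      have := Real.log_two_lt_d9
      linarith
    have h6 : k = 0 := by
      by_contra hk0
      have h7 : (1 : ℝ) ≤ |(k : ℝ)| := by
        have := Int.one_le_abs hk0
        exact_mod_cast this
      rw [abs_mul, abs_of_pos Real.two_pi_pos] at h4
      have h8 := Real.pi_gt_three
      nlinarith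
    rw [h6] at hk
    have hn0' : (n : ℂ) ≠ 0 := by
      have : n ≠ 0 := by omega
      exact_mod_cast this
    apply mul_left_cancel₀ hn0'
    rw [hk]
    simp
  have hmaps : EVT_W n wc '' s ⊆ ball wc d := by
    rintro _ ⟨ξ, hξ, rfl⟩
    exact EVT_Wball n wc ξ d hd (hre ξ hξ).1
  have hc0 : (0 : ℝ) ≤ 16 / (n ^ 2 * d ^ 2) := by positivity
  calc ∫⁻ ξ in s, ENNReal.ofReal (‖B ξ‖ - (B ξ).re)
      ≤ ∫⁻ ξ in s, ENNReal.ofReal (16 / (n ^ 2 * d ^ 2)) *
        (ENNReal.ofReal |((ContinuousLinearMap.toSpanSingleton ℂ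
          (n * Complex.exp (n * ξ))).restrictScalars ℝ : ℂ →L[ℝ] ℂ).det| *
          ENNReal.ofReal (F (EVT_W n wc ξ))) := by
        refine setLIntegral_mono' isOpen_ball.measurableSet fun ξ hξ => ?_
        rw [Pool.Agent.helper98.ILF.det_smul, abs_of_nonneg (by positivity),
          ← ENNReal.ofReal_mul (by positivity), ← ENNReal.ofReal_mul hc0]
        apply ENNReal.ofReal_le_ofReal
        obtain ⟨h1, h2⟩ := hre ξ hξ
        have h3 := hF ξ h1
        have h4 : (0 : ℝ) ≤ ‖B ξ‖ - (B ξ).re := sub_nonneg.2 (Complex.re_le_norm _)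
        have h5 : (n : ℝ) * (d / 4) ≤ ‖(n : ℂ) * Complex.exp (n * ξ)‖ := by
          rw [norm_mul, Complex.norm_natCast, Complex.norm_exp]
          have h6 : ((n : ℂ) * ξ).re = n * ξ.re := by simp
          rw [h6]
          refine mul_le_mul_of_nonneg_left ?_ hn0.le
          rw [← Real.log_le_iff_le_exp (by positivity)]
          exact h2.le
        have h6 : 1 ≤ 16 / (n ^ 2 * d ^ 2) * ‖(n : ℂ) * Complex.exp (n * ξ)‖ ^ 2 := by
          have h7 : ((n : ℝ) * (d / 4)) ^ 2 ≤ ‖(n : ℂ) * Complex.exp (n * ξ)‖ ^ 2 :=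
            pow_le_pow_left₀ (by positivity) h5 2
          have h8 : 16 / (n ^ 2 * d ^ 2) * ((n : ℝ) * (d / 4)) ^ 2 = 1 := by
            field_simp
            norm_num
          rw [← h8]
          exact mul_le_mul_of_nonneg_left h7 hc0
        calc ‖B ξ‖ - (B ξ).re ≤ F (EVT_W n wc ξ) := h3
          _ = 1 * F (EVT_W n wc ξ) := (one_mul _).symm
          _ ≤ 16 / (n ^ 2 * d ^ 2) * ‖(n : ℂ) * Complex.exp (n * ξ)‖ ^ 2 * F (EVT_W n wc ξ) :=
            mul_le_mul_of_nonneg_right h6 (h4.trans h3)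
          _ = _ := by ring
    _ = ENNReal.ofReal (16 / (n ^ 2 * d ^ 2)) * ∫⁻ w in EVT_W n wc '' s, ENNReal.ofReal (F w) := by
        rw [lintegral_const_mul' _ _ ENNReal.ofReal_ne_top]
        congr 1
        exact (lintegral_image_eq_lintegral_abs_det_fderiv_mul volume isOpen_ball.measurableSet hfd
          hinj (fun w => ENNReal.ofReal (F w))).symm
    _ ≤ ENNReal.ofReal (16 / (n ^ 2 * d ^ 2)) * ENNReal.ofReal ν := by
        gcongr
        exact (lintegral_mono_set hmaps).trans hFi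
    _ = ENNReal.ofReal (16 * ν / (n ^ 2 * d ^ 2)) := by
        rw [← ENNReal.ofReal_mul hc0]
        congr 1
        ring

theorem EVT (hHCH : HCH_stmt) : EVT_stmt := by
  intro n k _ c b g G wc w₁ y₁ d ν hn hcyc hd hν hG hGi hGb hGc hw1 hy1 hint
  have hn0 : n ≠ 0 := by omega
  have hnR : (0 : ℝ) < n := by
    have : 0 < n := by omega
    exact_mod_cast this
  have hnC : (n : ℂ) ≠ 0 := by exact_mod_cast hn0
  -- the function `h`
  have hball : ball wc d ∈ 𝓝 wc := ball_mem_nhds _ hd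
  have hhd : DifferentiableOn ℂ (dslope G wc) (ball wc d) :=
    (Complex.differentiableOn_dslope hball).2 hG
  have hh0 : ∀ w ∈ ball wc d, dslope G wc w ≠ 0 := by
    intro w hw
    by_cases hww : w = wc
    · subst hww
      rw [dslope_same]
      exact EVT_deriv hd hG hGi
    · intro h0
      have h1 := sub_smul_dslope G wc w
      rw [h0, smul_zero] at h1
      exact hww (hGi hw (mem_ball_self hd) (sub_eq_zero.1 h1.symm))
  obtain ⟨h₁, hh₁d, -, hh₁⟩ := Pool.Agent.helper98.ILF.exists_lift_pow (n := n) hn0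
    (w := wc) (u := rt n (dslope G wc wc)) (ρ := d) (h := dslope G wc) hd hhd hh0 (EVT_rt n hn0 _)
  have hYn : ∀ ξ : ℂ, (n : ℝ) * ξ.re < Real.log d →
      EVT_Y n wc h₁ ξ ^ n = G (EVT_W n wc ξ) - c := by
    intro ξ hξ
    have hW := EVT_Wball n wc ξ d hd hξ
    unfold EVT_Y
    rw [mul_pow, hh₁ _ hW, ← Complex.exp_nat_mul]
    have h1 := sub_smul_dslope G wc (EVT_W n wc ξ)
    rw [hGc, smul_eq_mul] at h1
    rw [← h1]
    congr 1
    unfold EVT_W
    ring
  have hY0 : ∀ ξ : ℂ, (n : ℝ) * ξ.re < Real.log d → EVT_Y n wc h₁ ξ ≠ 0 := by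
    intro ξ hξ
    have hW := EVT_Wball n wc ξ d hd hξ
    unfold EVT_Y
    refine mul_ne_zero (Complex.exp_ne_zero _) ?_
    intro h0
    have h1 := hh₁ _ hW
    rw [h0, zero_pow hn0] at h1
    exact hh0 _ hW h1.symm
  have hYb : ∀ ξ : ℂ, (n : ℝ) * ξ.re < Real.log d → ∀ i, EVT_Y n wc h₁ ξ ≠ b i := by
    intro ξ hξ i h0
    have h1 := hYn ξ hξ
    rw [h0] at h1
    apply hGb _ (EVT_Wball n wc ξ d hd hξ) (i + 1)
    rw [← hcyc.step i, h1]
    ring
  -- the point `ξ₁`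
  have hne : w₁ - wc ≠ 0 := by
    intro h0
    rw [h0, norm_zero] at hw1
    linarith
  have hlogd2 : ∀ ξ : ℂ, Complex.exp (n * ξ) = w₁ - wc → (n : ℝ) * ξ.re = Real.log (d / 2) := by
    intro ξ hξ
    have h1 := congrArg norm hξ
    rw [Complex.norm_exp, hw1] at h1
    have h2 : ((n : ℂ) * ξ).re = n * ξ.re := by simp
    rw [h2] at h1
    rw [← h1, Real.log_exp]
  have hlt : Real.log (d / 2) < Real.log d := Real.log_lt_log (by positivity) (by linarith)
  obtain ⟨ξ₁, hξ1, hYξ1⟩ : ∃ ξ₁ : ℂ, Complex.exp (n * ξ₁) = w₁ - wc ∧ EVT_Y n wc h₁ ξ₁ = y₁ := by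
    set ξ' : ℂ := Complex.log (w₁ - wc) / n with hξ'
    have e0 : Complex.exp (n * ξ') = w₁ - wc := by
      rw [hξ', mul_div_cancel₀ _ hnC, Complex.exp_log hne]
    have hξ'lt : (n : ℝ) * ξ'.re < Real.log d := by rw [hlogd2 ξ' e0]; exact hlt
    have e1 : EVT_W n wc ξ' = w₁ := by
      unfold EVT_W
      rw [e0]
      ring
    have e2 : y₁ ^ n = EVT_Y n wc h₁ ξ' ^ n := by
      rw [hYn ξ' hξ'lt, e1, ← hy1]
      ring
    obtain ⟨j, -, hj⟩ := EVT_root n hn0 y₁ _ (hY0 ξ' hξ'lt) e2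
    have key : ∀ j : ℕ, Complex.exp (n * (ξ' + j * (2 * Real.pi * I / n))) = w₁ - wc ∧
        EVT_Y n wc h₁ (ξ' + j * (2 * Real.pi * I / n)) = om n ^ j * EVT_Y n wc h₁ ξ' := by
      intro j
      induction j with
      | zero =>
        rw [Nat.cast_zero, zero_mul, add_zero, pow_zero, one_mul]
        exact ⟨e0, rfl⟩
      | succ j ih =>
        have e3 : ξ' + ((j + 1 : ℕ) : ℂ) * (2 * Real.pi * I / n) =
            (ξ' + j * (2 * Real.pi * I / n)) + 2 * Real.pi * I / n := by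
          push_cast
          ring
        rw [e3, EVT_Yper n hn0, ih.2]
        refine ⟨?_, by ring⟩
        have e4 := EVT_Wper n hn0 0 (ξ' + j * (2 * Real.pi * I / n))
        unfold EVT_W at e4
        rw [zero_add, zero_add] at e4
        rw [e4]
        exact ih.1
    exact ⟨_, (key j).1, by rw [(key j).2, hj]⟩
  have hre1 := hlogd2 ξ₁ hξ1
  have hW1 : EVT_W n wc ξ₁ = w₁ := by
    unfold EVT_W
    rw [hξ1]
    ring
  set a : ℂ := ξ₁ + 2 * Real.pi * I / n with ha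
  have hare : a.re = ξ₁.re := by
    rw [ha, Complex.add_re]
    have h1 : (2 * Real.pi * I / n : ℂ).re = 0 := by
      have h2 : (2 * Real.pi * I / n : ℂ) = ((2 * Real.pi / n : ℝ) : ℂ) * I := by
        push_cast
        ring
      rw [h2]
      simp
    rw [h1, add_zero]
  have hseg : ∀ p ∈ segment ℝ a ξ₁, (n : ℝ) * p.re = Real.log (d / 2) := by
    rintro p ⟨α, β, hα, hβ, hαβ, rfl⟩
    rw [← hre1]
    congr 1
    rw [Complex.add_re, Complex.real_smul, Complex.real_smul, Complex.re_ofReal_mul,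
      Complex.re_ofReal_mul, hare, ← add_mul, hαβ, one_mul]
  have hlog2 : 0 < Real.log 2 := Real.log_pos (by norm_num)
  have hfin := hHCH Unit {()} (fun _ => EVT_B n b g G wc h₁) {ξ : ℂ | (n : ℝ) * ξ.re < Real.log d}
    a ξ₁ (Real.log 2 / n) (16 * ν / (n ^ 2 * d ^ 2)) 19 (by positivity) (by positivity)
    (isOpen_lt (by fun_prop) continuous_const)
    (fun _ _ ξ hξ => (EVT_diff n hn b g G wc d hd hG h₁ hh₁d ξ hξ (hY0 ξ hξ)
      (hYb ξ hξ)).differentiableWithinAt)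
    (by
      intro p hp ξ hξ
      show (n : ℝ) * ξ.re < Real.log d
      have h1 : |ξ.re - p.re| < Real.log 2 / n := by
        have h2 := Complex.abs_re_le_norm (ξ - p)
        rw [Complex.sub_re] at h2
        rw [mem_ball, dist_eq_norm] at hξ
        linarith
      rw [lt_div_iff₀ hnR] at h1
      have h3 : |n * ξ.re - Real.log (d / 2)| < Real.log 2 := by
        rw [← hseg p hp, ← mul_sub, abs_mul, abs_of_pos hnR, mul_comm]
        exact h1
      rw [abs_lt] at h3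
      rw [Real.log_div hd.ne' (by norm_num)] at h3
      linarith [h3.2])
    (by
      intro p hp
      simp only [Finset.sum_singleton]
      refine EVT_int n hn wc p d ν hd (hseg p hp) (EVT_B n b g G wc h₁) _ ?_ hint
      intro ξ hξ
      obtain ⟨j, hj, hj'⟩ := EVT_root n hn0 (EVT_Y n wc h₁ ξ) (rt n (G (EVT_W n wc ξ) - c)) (by
          intro h0
          have h1 := EVT_rt n hn0 (G (EVT_W n wc ξ) - c)
          rw [h0, zero_pow hn0, ← hYn ξ hξ] at h1
          exact hY0 ξ hξ (pow_eq_zero_iff hn0 |>.1 h1.symm))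
        (by rw [EVT_rt n hn0, hYn ξ hξ])
      unfold EVT_B
      rw [hj']
      exact Finset.single_le_sum (f := fun j =>
        ‖brv n b g G (EVT_W n wc ξ) (om n ^ j * rt n (G (EVT_W n wc ξ) - c))‖ -
          (brv n b g G (EVT_W n wc ξ) (om n ^ j * rt n (G (EVT_W n wc ξ) - c))).re)
        (fun j _ => sub_nonneg.2 (Complex.re_le_norm _)) (Finset.mem_range.2 hj))
    (by
      have h1 : ξ₁ - a = -(((2 * Real.pi / n : ℝ) : ℂ) * I) := by
        rw [ha]
        push_cast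
        ring
      rw [h1, norm_neg, norm_mul, Complex.norm_I, mul_one, Complex.norm_real,
        Real.norm_of_nonneg (by positivity)]
      have h2 := Real.log_two_gt_d9
      have h3 := Real.pi_lt_d2
      have h4 : ((19 : ℕ) : ℝ) * (Real.log 2 / n / 2) = (19 * Real.log 2 / 2) / n := by
        push_cast
        ring
      rw [h4]
      apply div_le_div_of_nonneg_right _ hnR.le
      linarith)
  simp only [Finset.sum_singleton] at hfin
  have hB1 : EVT_B n b g G wc h₁ ξ₁ = brv n b g G w₁ y₁ := by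
    unfold EVT_B
    rw [hW1, hYξ1]
  have hBa : EVT_B n b g G wc h₁ a = brv n b g G w₁ (om n * y₁) := by
    unfold EVT_B
    rw [ha, EVT_Wper n hn0, EVT_Yper n hn0, hW1, hYξ1]
  rw [hB1, hBa] at hfin
  refine hfin.trans ?_
  have hlog : 0.69 < Real.log 2 := by
    have := Real.log_two_gt_d9
    linarith
  have hq : 2 * (16 * ν / (n ^ 2 * d ^ 2)) / (Real.pi * (Real.log 2 / n) ^ 2) ≤ 4 * (12 * ν / d ^ 2) := by
    have h1 : 2 * (16 * ν / (n ^ 2 * d ^ 2)) / (Real.pi * (Real.log 2 / n) ^ 2) =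
        (ν / d ^ 2) * (32 / (Real.pi * Real.log 2 ^ 2)) := by
      field_simp
      ring
    rw [h1]
    have h2 : 32 / (Real.pi * Real.log 2 ^ 2) ≤ 48 := by
      rw [div_le_iff₀ (by positivity)]
      have h3 := Real.pi_gt_three
      nlinarith [mul_pos hlog2 hlog2]
    have h3 : 0 ≤ ν / d ^ 2 := by positivity
    calc (ν / d ^ 2) * (32 / (Real.pi * Real.log 2 ^ 2)) ≤ (ν / d ^ 2) * 48 :=
          mul_le_mul_of_nonneg_left h2 h3
      _ = 4 * (12 * ν / d ^ 2) := by ring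
  have h5 : (4 : ℝ) ^ 20 = 4 ^ 19 * 4 := by norm_num
  rw [h5, mul_assoc]
  refine mul_le_mul_of_nonneg_left ?_ (by positivity)
  have h6 := norm_nonneg (brv n b g G w₁ (om n * y₁))
  linarith

end MPS
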