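import Pool.Agent.helper36.MP.SpecC

/-! # mp:END. A slit direction ends at a zero -/

set_option autoImplicit false

open Complex Metric Set Filter Topology MeasureTheory

noncomputable section

namespace MPS

/-- a bounded curve with finitely many limit points converges -/
theorem END_conv (γ : ℝ → ℂ) (T a : ℝ) (haT : a < T) (hc : ContinuousOn γ (Ioo a T)) (M : ℝ)
    (hM : ∀ t ∈ Ioo a T, ‖γ t‖ ≤ M) (Z : Finset ℂ)
    (hZ : ∀ z, MapClusterPt z (𝓝[<] T) γ → z ∈ Z) :
    ∃ ζ ∈ Z, Tendsto γ (𝓝[<] T) (𝓝 ζ) := by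
  classical
  have hIoo : Ioo a T ∈ 𝓝[<] T := Ioo_mem_nhdsLT haT
  have hA : ∀ U : Set ℂ, IsOpen U → (∀ z ∈ Z, z ∈ U) → ∀ᶠ t in 𝓝[<] T, γ t ∈ U := by
    intro U hU hZU
    by_contra hn
    have h1 : ∃ᶠ t in 𝓝[<] T, γ t ∉ U := Filter.not_eventually.1 hn
    have h2 : ∃ᶠ t in 𝓝[<] T, γ t ∈ closedBall (0 : ℂ) M \ U := by
      refine (h1.and_eventually hIoo).mono ?_
      rintro t ⟨h3, h4⟩
      exact ⟨mem_closedBall_zero_iff.2 (hM t h4), h3⟩
    obtain ⟨z, hz, hz'⟩ := ((isCompact_closedBall (0 : ℂ) M).diff hU).exists_mapClusterPt_of_frequently h2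
    exact hz.2 (hZU z (hZ z hz'))
  obtain ⟨U, hU, hUd⟩ := Set.Finite.t2_separation (s := (Z : Set ℂ)) Z.finite_toSet
  have hV := hA (⋃ z ∈ Z, U z) (isOpen_biUnion fun z _ => (hU z).2)
    (fun z hz => mem_biUnion hz (hU z).1)
  have hV' := hV.and hIoo
  obtain ⟨t₀, ht₀T, ht₀⟩ := (mem_nhdsLT_iff_exists_Ioo_subset' haT).1 hV'
  have ht₁ : (t₀ + T) / 2 ∈ Ioo t₀ T := by
    have : t₀ < T := ht₀T
    constructor <;> linarith
  obtain ⟨hmem, -⟩ := ht₀ ht₁
  rw [mem_iUnion₂] at hmem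
  obtain ⟨ζ, hζ, hζU⟩ := hmem
  have hsub : γ '' Ioo t₀ T ⊆ U ζ := by
    refine IsPreconnected.subset_left_of_subset_union (hU ζ).2
      (isOpen_biUnion (s := ((Z.erase ζ : Finset ℂ) : Set ℂ)) (f := U) fun z _ => (hU z).2) ?_ ?_ ?_ ?_
    · rw [disjoint_iUnion₂_right]
      intro z hz
      have hz' := Finset.mem_erase.1 (Finset.mem_coe.1 hz)
      exact hUd (Finset.mem_coe.2 hζ) (Finset.mem_coe.2 hz'.2) hz'.1.symm
    · rintro _ ⟨t, ht, rfl⟩
      obtain ⟨h1, -⟩ := ht₀ ht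
      rw [mem_iUnion₂] at h1
      obtain ⟨z, hz, hzU⟩ := h1
      by_cases hzζ : z = ζ
      · subst hzζ
        exact Or.inl hzU
      · exact Or.inr (mem_biUnion (Finset.mem_coe.2 (Finset.mem_erase.2 ⟨hzζ, hz⟩)) hzU)
    · exact ⟨_, mem_image_of_mem _ ht₁, hζU⟩
    · exact isPreconnected_Ioo.image _ (hc.mono fun t ht => (ht₀ ht).2)
  refine ⟨ζ, hζ, ?_⟩
  rw [_root_.tendsto_nhds]
  intro W hW hζW
  have h1 := hA (W ∪ ⋃ z ∈ Z.erase ζ, U z)
    (hW.union (isOpen_biUnion fun z _ => (hU z).2)) (by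
      intro z hz
      by_cases hzζ : z = ζ
      · subst hzζ
        exact Or.inl hζW
      · exact Or.inr (mem_biUnion (Finset.mem_erase.2 ⟨hzζ, hz⟩) (hU z).1))
  have h2 : Ioo t₀ T ∈ 𝓝[<] T := Ioo_mem_nhdsLT ht₀T
  filter_upwards [h1, h2] with t h3 h4
  rcases h3 with h3 | h3
  · exact h3
  · exfalso
    rw [mem_iUnion₂] at h3
    obtain ⟨z, hz, hzU⟩ := h3
    have hz' := Finset.mem_erase.1 hz
    have h5 : γ t ∈ U ζ := hsub ⟨t, h4, rfl⟩
    exact Set.disjoint_left.1 (hUd (Finset.mem_coe.2 hζ) (Finset.mem_coe.2 hz'.2) hz'.1.symm) h5 hzU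

/-- continuation of the natural map beyond a regular point -/
theorem END_ext (hNU : NU_stmt) (hNR : NR_stmt) (k : ℕ) [NeZero k] (b g : ZMod k → ℂ)
    (ψ : ℂ → ℂ) (T y : ℝ) (hT : 0 ≤ T) (hsl : Slit b g ψ T y) (χ : ℂ → ℂ) (Ω : Set ℂ) (hΩ : IsOpen Ω)
    (hHP : HP 0 ⊆ Ω) (hleft : ∀ w ∈ Ω, ∀ s : ℝ, 0 ≤ s → w - s ∈ Ω)
    (hray : ∀ t : ℝ, t < T → (t : ℂ) + y * I ∈ Ω) (hnat : IsNat b g χ Ω)
    (heq : EqOn χ (hat ψ) (HP 0)) (zs : ℂ) (hzs : ∀ j, zs ≠ b j) (hB : BB b g zs ≠ 0)
    (hcl : MapClusterPt zs (𝓝[<] T) (fun t : ℝ => χ ((t : ℂ) + y * I))) : False := by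
  obtain ⟨r, hr, ε, hε, hNR'⟩ := hNR k b g zs hzs hB
  -- choice of `t`
  have h1 : ∃ᶠ t : ℝ in 𝓝[<] T, χ ((t : ℂ) + y * I) ∈ ball zs ε :=
    hcl.frequently (ball_mem_nhds zs hε)
  have h2 : Ioo (T - r / 4) T ∈ 𝓝[<] T := Ioo_mem_nhdsLT (by linarith)
  obtain ⟨t, htb, ht⟩ := (h1.and_eventually h2).exists
  set w₁ : ℂ := (t : ℂ) + y * I with hw₁
  have hw₁re : w₁.re = t := by simp [hw₁]
  have hw₁im : w₁.im = y := by simp [hw₁]
  have hw₁Ω : w₁ ∈ Ω := hray t ht.2
  obtain ⟨χ', hχ0, hχd, hχn⟩ := hNR' (χ w₁) htb (deriv χ w₁) (hnat.eq w₁ hw₁Ω)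
  have hσ : deriv χ w₁ ≠ 0 := by
    intro h0
    have h3 := hnat.eq w₁ hw₁Ω
    rw [h0] at h3
    simp at h3
  obtain ⟨s, hs, hsub⟩ := Metric.isOpen_iff.1 hΩ w₁ hw₁Ω
  set e : ℝ := min (s / 2) (r / 4) with he
  have he0 : 0 < e := lt_min (by positivity) (by positivity)
  have hes : e ≤ s / 2 := min_le_left _ _
  have her : e ≤ r / 4 := min_le_right _ _
  -- the strip
  have hstrip : ∀ w : ℂ, |w.im - y| < e → w.re < t + e → w ∈ Ω := by
    intro w hw1 hw2
    have h3 : ((max w.re t : ℝ) : ℂ) + w.im * I ∈ Ω := by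
      apply hsub
      rw [mem_ball, dist_eq_norm]
      have h4 : ((max w.re t : ℝ) : ℂ) + w.im * I - w₁ =
          ((max w.re t - t : ℝ) : ℂ) + ((w.im - y : ℝ) : ℂ) * I := by
        rw [hw₁]
        push_cast
        ring
      rw [h4]
      have h5 : |max w.re t - t| < e := by
        rw [abs_of_nonneg (by linarith [le_max_right w.re t])]
        rcases max_cases w.re t with ⟨h6, -⟩ | ⟨h6, -⟩ <;> rw [h6] <;> linarith
      calc ‖((max w.re t - t : ℝ) : ℂ) + ((w.im - y : ℝ) : ℂ) * I‖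
          ≤ ‖((max w.re t - t : ℝ) : ℂ)‖ + ‖((w.im - y : ℝ) : ℂ) * I‖ := norm_add_le _ _
        _ = |max w.re t - t| + |w.im - y| := by
          rw [norm_mul, Complex.norm_I, mul_one, Complex.norm_real, Complex.norm_real,
            Real.norm_eq_abs, Real.norm_eq_abs]
        _ < s := by linarith
    have h7 := hleft _ h3 (max w.re t - w.re) (by linarith [le_max_left w.re t])
    have h8 : ((max w.re t : ℝ) : ℂ) + w.im * I - ((max w.re t - w.re : ℝ) : ℂ) = w := by
      push_cast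
      have := Complex.re_add_im w
      linear_combination this
    rwa [h8] at h7
  -- agreement
  obtain ⟨s', hs', hder, hK, -⟩ := hNU k b g χ χ' Ω (ball 0 r) w₁ 0 hΩ isOpen_ball hnat hχn hw₁Ω
    (mem_ball_self hr) hχ0.symm
  have hs1 : s' = 1 := by
    rw [hχd] at hder
    have h3 : (s' - 1) * deriv χ w₁ = 0 := by linear_combination -hder
    rcases mul_eq_zero.1 h3 with h4 | h4
    · linear_combination h4
    · exact absurd h4 hσ
  subst hs1
  have hnorm : ∀ h : ℂ, |h.im| < e → -e < h.re → h.re < T - t + e → h ∈ ball (0 : ℂ) r := by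
    intro h h3 h4 h5
    rw [mem_ball_zero_iff]
    have h6 := Complex.norm_le_abs_re_add_abs_im h
    have h7 : |h.re| < T - t + e := by
      rw [abs_lt]
      constructor <;> linarith [ht.2]
    linarith [ht.1]
  have hagree : ∀ w : ℂ, |w.im - y| < e → t - e < w.re → w.re < max (t + e) 0 →
      χ w = χ' (w - w₁) := by
    intro w h3 h4 h5
    set K : Set ℂ := {h : ℂ | |h.im| < e ∧ -e < h.re ∧ h.re < max e (-t)} with hKdef
    have hKo : IsOpen K := by
      have e1 : IsOpen {h : ℂ | |h.im| < e} := isOpen_lt (by fun_prop) continuous_const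
      have e2 : IsOpen {h : ℂ | -e < h.re} := isOpen_lt continuous_const Complex.continuous_re
      have e3 : IsOpen {h : ℂ | h.re < max e (-t)} := isOpen_lt Complex.continuous_re continuous_const
      exact e1.inter (e2.inter e3)
    have hKc : Convex ℝ K := by
      intro u hu v hv α β hα hβ hαβ
      obtain ⟨hu1, hu2, hu3⟩ := hu
      obtain ⟨hv1, hv2, hv3⟩ := hv
      have hre : (α • u + β • v).re = α * u.re + β * v.re := by simp
      have him : (α • u + β • v).im = α * u.im + β * v.im := by simp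
      refine ⟨?_, ?_, ?_⟩
      · rw [him]
        rw [abs_lt] at hu1 hv1 ⊢
        have := convex_Ioo (𝕜 := ℝ) (-e) e hu1 hv1 hα hβ hαβ
        simpa using this
      · rw [hre]
        have := convex_Ioi (𝕜 := ℝ) (-e) (show u.re ∈ Ioi (-e) from hu2) (show v.re ∈ Ioi (-e) from hv2) hα hβ hαβ
        simpa using this
      · rw [hre]
        have := convex_Iio (𝕜 := ℝ) (max e (-t)) (show u.re ∈ Iio _ from hu3) (show v.re ∈ Iio _ from hv3) hα hβ hαβ
        simpa using this
    have h0K : (0 : ℂ) ∈ K := by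
      refine ⟨by simpa using he0, by simpa using he0, ?_⟩
      exact lt_of_lt_of_le (by simpa using he0) (le_max_left _ _)
    have h6 := hK K hKo hKc.isPreconnected h0K (by
      intro h hh
      obtain ⟨hh1, hh2, hh3⟩ := hh
      have hre : (w₁ + h).re = t + h.re := by rw [Complex.add_re, hw₁re]
      have him : (w₁ + h).im - y = h.im := by rw [Complex.add_im, hw₁im]; ring
      constructor
      · rcases lt_max_iff.1 hh3 with h7 | h7
        · exact hstrip _ (by rw [him]; exact hh1) (by rw [hre]; linarith)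
        · apply hHP
          show (w₁ + h).re < -0
          rw [hre]
          linarith
      · rw [zero_add, one_mul]
        refine hnorm h hh1 hh2 (lt_of_lt_of_le hh3 (max_le ?_ ?_))
        · linarith [ht.2]
        · linarith) (w - w₁) (by
      refine ⟨?_, ?_, ?_⟩
      · rw [Complex.sub_im, hw₁im]
        exact h3
      · rw [Complex.sub_re, hw₁re]
        linarith
      · rw [Complex.sub_re, hw₁re]
        rcases lt_max_iff.1 h5 with h7 | h7
        · exact lt_of_lt_of_le (by linarith) (le_max_left _ _)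
        · exact lt_of_lt_of_le (by linarith) (le_max_right _ _))
    rw [add_sub_cancel, zero_add, one_mul] at h6
    exact h6
  -- the extension
  apply hsl
  set F : ℂ → ℂ := fun w => if w.re < max (t + e) 0 then χ w else χ' (w - w₁) with hF
  have hc1 : ∀ w : ℂ, w ∈ HP 0 ∪ {w | |w.im - y| < e ∧ w.re < T + e} → w.re < max (t + e) 0 →
      w ∈ Ω ∧ F =ᶠ[𝓝 w] χ := by
    intro w hw hlt
    constructor
    · rcases lt_max_iff.1 hlt with h3 | h3
      · rcases hw with hw | hw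
        · exact hHP hw
        · exact hstrip w hw.1 h3
      · apply hHP
        show w.re < -0
        linarith
    · have h4 : {w : ℂ | w.re < max (t + e) 0} ∈ 𝓝 w :=
        (isOpen_lt Complex.continuous_re continuous_const).mem_nhds hlt
      filter_upwards [h4] with w' hw'
      exact if_pos hw'
  have hc2 : ∀ w : ℂ, w ∈ HP 0 ∪ {w | |w.im - y| < e ∧ w.re < T + e} → ¬ w.re < max (t + e) 0 →
      w - w₁ ∈ ball (0 : ℂ) r ∧ F =ᶠ[𝓝 w] fun w => χ' (w - w₁) := by
    intro w hw hnlt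
    rw [not_lt, max_le_iff] at hnlt
    have hw' : |w.im - y| < e ∧ w.re < T + e := by
      rcases hw with hw | hw
      · exfalso
        have : w.re < -0 := hw
        linarith [hnlt.2]
      · exact hw
    constructor
    · apply hnorm
      · rw [Complex.sub_im, hw₁im]
        exact hw'.1
      · rw [Complex.sub_re, hw₁re]
        linarith [hnlt.1]
      · rw [Complex.sub_re, hw₁re]
        linarith [hw'.2]
    · have h4 : {w : ℂ | |w.im - y| < e} ∈ 𝓝 w :=
        (isOpen_lt (by fun_prop) continuous_const).mem_nhds hw'.1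
      have h5 : {w : ℂ | t - e < w.re} ∈ 𝓝 w :=
        (isOpen_lt continuous_const Complex.continuous_re).mem_nhds
          (show t - e < w.re by linarith [hnlt.1])
      filter_upwards [h4, h5] with w' h6 h7
      by_cases h8 : w'.re < max (t + e) 0
      · rw [hF]
        simp only
        rw [if_pos h8]
        exact hagree w' h6 h7 h8
      · exact if_neg h8
  have hshift : ∀ w : ℂ, w - w₁ ∈ ball (0 : ℂ) r →
      HasDerivAt (fun w => χ' (w - w₁)) (deriv χ' (w - w₁)) w := by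
    intro w hw
    have h3 : DifferentiableAt ℂ χ' (w - w₁) := hχn.diff.differentiableAt (isOpen_ball.mem_nhds hw)
    have h4 := h3.hasDerivAt.comp w ((hasDerivAt_id w).sub_const w₁)
    rw [mul_one] at h4
    exact h4
  refine ⟨e, he0, F, ⟨?_, ?_, ?_⟩, ?_⟩
  · intro w hw
    by_cases hlt : w.re < max (t + e) 0
    · obtain ⟨h3, h4⟩ := hc1 w hw hlt
      exact ((hnat.diff.differentiableAt (hΩ.mem_nhds h3)).congr_of_eventuallyEq h4).differentiableWithinAt
    · obtain ⟨h3, h4⟩ := hc2 w hw hlt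
      exact ((hshift w h3).differentiableAt.congr_of_eventuallyEq h4).differentiableWithinAt
  · intro w hw j
    by_cases hlt : w.re < max (t + e) 0
    · obtain ⟨h3, h4⟩ := hc1 w hw hlt
      rw [h4.self_of_nhds]
      exact hnat.av w h3 j
    · obtain ⟨h3, h4⟩ := hc2 w hw hlt
      rw [h4.self_of_nhds]
      exact hχn.av _ h3 j
  · intro w hw
    by_cases hlt : w.re < max (t + e) 0
    · obtain ⟨h3, h4⟩ := hc1 w hw hlt
      rw [h4.deriv_eq, h4.self_of_nhds]
      exact hnat.eq w h3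
    · obtain ⟨h3, h4⟩ := hc2 w hw hlt
      rw [h4.deriv_eq, h4.self_of_nhds, (hshift w h3).deriv]
      exact hχn.eq _ h3
  · intro w hw
    have h3 : w.re < -0 := hw
    have h4 : w.re < max (t + e) 0 := lt_of_lt_of_le (by linarith) (le_max_right _ _)
    rw [hF]
    simp only
    rw [if_pos h4]
    exact heq hw

theorem END (hENA : ENA_stmt) (hENB : ENB_stmt) (hTP : TP_stmt) (hNU : NU_stmt) (hNR : NR_stmt) :
    END_stmt := by
  intro k _ b g i ψ d y hb hg hpn hd hsl
  obtain ⟨T, hT0, -, hslT, χ, Ω, hΩ, hHP, hleft, hray, hnat, heq⟩ := hENA k b g i ψ d y hpn hd hsl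
  obtain ⟨M, η, hη, hbd⟩ := hENB k b g χ Ω T y hb hg hΩ hnat hray
  obtain ⟨tp1, tp2, -⟩ := hTP k b g hb
  have hP0 : Ppoly b g ≠ 0 := by
    intro h0
    apply tp2 i
    rw [h0, Polynomial.eval_zero]
  have hcont : ContinuousOn (fun t : ℝ => χ ((t : ℂ) + y * I)) (Ioo (T - 1) T) := by
    intro t ht
    have h1 : ContinuousAt χ ((t : ℂ) + y * I) :=
      (hnat.diff.differentiableAt (hΩ.mem_nhds (hray t ht.2))).continuousAt
    have h2 : ContinuousAt (fun t : ℝ => (t : ℂ) + y * I) t := by fun_prop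
    exact (ContinuousAt.comp (f := fun t : ℝ => (t : ℂ) + y * I) h1 h2).continuousWithinAt
  obtain ⟨ζ, hζ, hlim⟩ := END_conv (fun t : ℝ => χ ((t : ℂ) + y * I)) T (T - 1) (by linarith) hcont M
    (fun t ht => (hbd t ⟨ht.1.le, ht.2⟩).1) (Ppoly b g).roots.toFinset (by
      intro zs hcl
      rw [Multiset.mem_toFinset, Polynomial.mem_roots hP0, Polynomial.IsRoot.def]
      by_contra hne
      have hzs : ∀ j, zs ≠ b j := by
        rintro j rfl
        have h1 := hcl.frequently (ball_mem_nhds (b j) hη)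
        have h2 : Ioo (T - 1) T ∈ 𝓝[<] T := Ioo_mem_nhdsLT (by linarith)
        obtain ⟨t, ht1, ht2⟩ := (h1.and_eventually h2).exists
        have h3 := (hbd t ⟨ht2.1.le, ht2.2⟩).2 j
        rw [dist_eq_norm] at ht1
        linarith
      have hB : BB b g zs ≠ 0 := by
        intro h0
        apply hne
        rw [← tp1 zs hzs, h0, zero_mul]
      exact END_ext hNU hNR k b g ψ T y hT0 hslT χ Ω hΩ hHP hleft hray hnat heq zs hzs hB hcl)
  rw [Multiset.mem_toFinset, Polynomial.mem_roots hP0, Polynomial.IsRoot.def] at hζ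
  exact ⟨ζ, hζ, T, hT0, χ, Ω, hΩ, hHP, hleft, hray, hnat, heq, hlim⟩

end MPS
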